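import Pool.Agent.DPF.Stmts

/-!
Rows JNS and SLP of the squad DPF: real inequalities for `ph θ x = (x - θ)_+ ^ 2`.
-/

set_option autoImplicit false

namespace Pool.Agent.DPF.H81

open Finset Pool.Agent.DPF

theorem ph_tangent (θ x g : ℝ) : ph θ x + 2 * max (x - θ) 0 * g ≤ ph θ (x + g) := by
  unfold ph
  rcases le_total (x - θ) 0 with h | h
  · rw [max_eq_right h]
    have := sq_nonneg (max (x + g - θ) 0)
    linarith
  · rw [max_eq_left h]
    rcases le_total (x + g - θ) 0 with h' | h'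
    · rw [max_eq_right h']
      nlinarith
    · rw [max_eq_left h']
      nlinarith [sq_nonneg g]

/-- JNS -/
theorem jns : JNSStmt := by
  intro ι s w g θ x hw hg
  have h1 : ∑ i ∈ s, 2 * max (x - θ) 0 * (w i * g i) ≤
      ∑ i ∈ s, w i * (ph θ (x + g i) - ph θ x) := by
    refine Finset.sum_le_sum fun i hi => ?_
    have h2 := ph_tangent θ x (g i)
    have h3 : 2 * max (x - θ) 0 * g i ≤ ph θ (x + g i) - ph θ x := by linarith
    have h4 := mul_le_mul_of_nonneg_left h3 (hw i hi)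
    calc 2 * max (x - θ) 0 * (w i * g i) = w i * (2 * max (x - θ) 0 * g i) := by ring
      _ ≤ _ := h4
  rw [← Finset.mul_sum] at h1
  refine le_trans ?_ h1
  exact mul_nonneg (mul_nonneg (by norm_num) (le_max_right _ _)) hg

theorem slp1 (θ y d H : ℝ) (hd : 0 ≤ d) (hdH : d ≤ H) (hH : 0 < H) :
    d * ((ph θ y - ph θ (y - H)) / H) ≤ ph θ y - ph θ (y - d) := by
  unfold ph
  obtain ⟨u, hu⟩ : ∃ u, u = max (y - θ) 0 := ⟨_, rfl⟩
  obtain ⟨v, hv⟩ : ∃ v, v = max (y - H - θ) 0 := ⟨_, rfl⟩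
  obtain ⟨w, hw⟩ : ∃ w, w = max (y - d - θ) 0 := ⟨_, rfl⟩
  rw [← hu, ← hv, ← hw]
  have hu0 : 0 ≤ u := hu ▸ le_max_right _ _
  have hv0 : 0 ≤ v := hv ▸ le_max_right _ _
  have hw0 : 0 ≤ w := hw ▸ le_max_right _ _
  have hu1 : y - θ ≤ u := hu ▸ le_max_left _ _
  have hv1 : y - H - θ ≤ v := hv ▸ le_max_left _ _
  have hc : H * w ≤ (H - d) * u + d * v := by
    rw [hw]
    rcases le_total (y - d - θ) 0 with h | h
    · rw [max_eq_right h, mul_zero]
      exact add_nonneg (mul_nonneg (by linarith) hu0) (mul_nonneg hd hv0)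
    · rw [max_eq_left h]
      have h1 := mul_le_mul_of_nonneg_left hu1 (by linarith : 0 ≤ H - d)
      have h2 := mul_le_mul_of_nonneg_left hv1 hd
      linarith
  have hs : (H * w) ^ 2 ≤ ((H - d) * u + d * v) ^ 2 :=
    pow_le_pow_left₀ (mul_nonneg hH.le hw0) hc 2
  have ht : ((H - d) * u + d * v) ^ 2 ≤ H * ((H - d) * u ^ 2 + d * v ^ 2) := by
    have h1 : 0 ≤ (H - d) * d * (u - v) ^ 2 :=
      mul_nonneg (mul_nonneg (by linarith) hd) (sq_nonneg _)
    linarith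
  have hk : H * w ^ 2 ≤ (H - d) * u ^ 2 + d * v ^ 2 := by
    have h1 : H * (H * w ^ 2) ≤ H * ((H - d) * u ^ 2 + d * v ^ 2) := by
      calc H * (H * w ^ 2) = (H * w) ^ 2 := by ring
        _ ≤ _ := hs.trans ht
    exact le_of_mul_le_mul_left h1 hH
  rw [mul_div_assoc', div_le_iff₀ hH]
  linarith

theorem slp2 (θ x y d : ℝ) (hxy : x ≤ y) (hd : 0 ≤ d) :
    ph θ (x + d) - ph θ x ≤ ph θ (y + d) - ph θ y := by
  unfold ph
  obtain ⟨A, hA⟩ : ∃ A, A = max (x + d - θ) 0 := ⟨_, rfl⟩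
  obtain ⟨B, hB⟩ : ∃ B, B = max (x - θ) 0 := ⟨_, rfl⟩
  obtain ⟨C, hC⟩ : ∃ C, C = max (y + d - θ) 0 := ⟨_, rfl⟩
  obtain ⟨D, hD⟩ : ∃ D, D = max (y - θ) 0 := ⟨_, rfl⟩
  rw [← hA, ← hB, ← hC, ← hD]
  have hB0 : 0 ≤ B := hB ▸ le_max_right _ _
  have hBA : B ≤ A := by
    rw [hA, hB]
    exact max_le_max (by linarith) le_rfl
  have hAC : A ≤ C := by
    rw [hA, hC]
    exact max_le_max (by linarith) le_rfl
  have hBD : B ≤ D := by
    rw [hB, hD]
    exact max_le_max (by linarith) le_rfl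
  have hinc : A - B ≤ C - D := by
    rw [hA, hB, hC, hD]
    simp only [max_def]
    split_ifs <;> linarith
  have h1 : (A - B) * (A + B) ≤ (C - D) * (C + D) :=
    mul_le_mul hinc (by linarith) (by linarith) (by linarith)
  linarith

theorem slp3 (θ x y : ℝ) (hxy : x ≤ y) : ph θ x ≤ ph θ y := by
  unfold ph
  exact pow_le_pow_left₀ (le_max_right _ _) (max_le_max (by linarith) le_rfl) 2

/-- SLP -/
theorem slp : SLPStmt := fun θ =>
  ⟨fun y d H h1 h2 h3 => slp1 θ y d H h1 h2 h3, fun x y d h1 h2 => slp2 θ x y d h1 h2,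
    fun x y h => slp3 θ x y h⟩

end Pool.Agent.DPF.H81
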